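import Mathlib
import Pool.Agent.H355R3.Form6

set_option autoImplicit false

/-! Project H355-UF (MP_456268_al): statements.  Every task is a `def TaskX : Prop`; prove
`theorem taskX : H355R3.UF.TaskX` in your own file.  All the notions (`Formation`, `residual`,
`RegularWreathProduct` API, `Zp p`, `pForm p`, `powSub`, `NilPow`) are in
`Pool/Agent/H355R3/Form1..Form6.lean`. Convention: in `RegularWreathProduct T U`,
`(a * b).left x = a.left x * b.left (a.right⁻¹ * x)` and `(a * b).right = a.right * b.right`. -/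

namespace H355R3.UF

open H355R3 RegularWreathProduct

/-- `X` is non-decomposable: `X ≠ (1)` and `X` is not a product `A * B` of two formations
different from `(1)`. -/
def Indec (X : Formation) : Prop :=
  X ≠ 1 ∧ ¬ ∃ A B : Formation, A ≠ 1 ∧ B ≠ 1 ∧ X = A * B

/-- `B` contains no wreath product `P ≀ K` with `P ≠ 1` -/
def ThinAt (B : Formation) (K : Type) [Group K] [Finite K] : Prop :=
  ∀ (P : Type) [Group P] [Finite P], B.Mem (RegularWreathProduct P K) → Subsingleton P

/-- the group of all `w ∈ M ≀ (G × K)` such that every slice `g ↦ w.left (g, k)`, as an element of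
the base group of `M ≀ G`, lies in `R`. -/
def sliceSub {M G : Type} [Group M] [Group G] (R : Subgroup (RegularWreathProduct M G))
    [hR : R.Normal] (K : Type) [Group K] : Subgroup (RegularWreathProduct M (G × K)) where
  carrier := {w | ∀ k : K, (⟨fun g => w.left (g, k), 1⟩ : RegularWreathProduct M G) ∈ R}
  one_mem' := fun _ => R.one_mem
  mul_mem' := by
    intro a b ha hb k
    have h1 := hR.conj_mem _ (hb (a.right.2⁻¹ * k)) ⟨1, a.right.1⟩
    have h2 := R.mul_mem (ha k) h1
    convert h2 using 1
    apply RegularWreathProduct.ext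
    · funext g
      simp
      rfl
    · simp
  inv_mem' := by
    intro a ha k
    have h1 := hR.conj_mem _ (R.inv_mem (ha (a.right.2 * k))) ⟨1, a.right.1⁻¹⟩
    convert h1 using 1
    apply RegularWreathProduct.ext
    · funext g
      simp
      rfl
    · simp

/-- **Task B** (abelian Bryant–Bryce–Hartley). -/
def TaskB : Prop :=
  ∀ (p : ℕ) [Fact p.Prime] (D : Formation) (X : Type) [Group X] [Finite X],
    D.Mem (RegularWreathProduct (Zp p) X) →
    ∀ (K : Type) [Group K] [Finite K] (f : K →* X), Function.Surjective f →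
      (∀ x ∈ f.ker, x ^ p = 1) → (∀ x ∈ f.ker, ∀ y ∈ f.ker, x * y = y * x) → D.Mem K

/-- **Task B2**. -/
def TaskB2 : Prop :=
  TaskB → ∀ (p : ℕ) [Fact p.Prime] (D : Formation) (G : Type) [Group G] [Finite G],
    IsPGroup p (D.residual G) →
    D.Mem (RegularWreathProduct (Zp p) (G ⧸ D.residual G)) → D.Mem G

/-- **Task C1**. -/
def TaskC1 : Prop :=
  ∀ (M N : Type) [Group M] [Finite M] [Group N] [Fintype N] [Nontrivial N]
    (V : Subgroup (RegularWreathProduct M N)) [V.Normal],
    (∀ n : N, ∃ v ∈ V, v.right = n) → V ≠ ⊤ →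
    ∃ (p : ℕ) (_ : Fact p.Prime) (χ : M →* Zp p), Function.Surjective χ ∧
      ∀ v ∈ V, v.right = 1 → ∏ x : N, χ (v.left x) = 1

/-- **Task C2**. -/
def TaskC2 : Prop :=
  ∀ (B : Formation) (M G : Type) [Group M] [Finite M] [Group G] [Finite G]
    [Fintype (B.residual G)] (p : ℕ) [Fact p.Prime] (χ : M →* Zp p), Function.Surjective χ →
    (∀ u ∈ B.residual (RegularWreathProduct M G), u.right = 1 →
      ∏ x : B.residual G, χ (u.left x) = 1) →
    B.Mem (RegularWreathProduct (Zp p) (G ⧸ B.residual G))

/-- **Task C** (fullness of the residual of a wreath product). -/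
def TaskC : Prop :=
  TaskC1 → TaskC2 → ∀ (A B : Formation) (M G : Type) [Group M] [Finite M] [Group G] [Finite G],
    (∀ (T : Type) [Group T] [Finite T] [IsSimpleGroup T] (f : M →* T), Function.Surjective f →
      ¬ B.Mem (RegularWreathProduct T (G ⧸ B.residual G))) →
    A.Mem (B.residual (RegularWreathProduct M G)) →
    A.Mem (RegularWreathProduct M (B.residual G))

/-- **Task D**. -/
def TaskD : Prop :=
  ∀ (e : ℕ) (A : Formation) (X : Type) [Group X] [Finite X] [Nontrivial X], 0 < e →
    NilPow e A →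
    (∀ (M : Type) [Group M] [Finite M], A.Mem M → A.Mem (RegularWreathProduct M X)) →
    ∀ (M : Type) [Group M] [Finite M], A.Mem M → Group.IsNilpotent M

/-- **Task E**. -/
def TaskE : Prop :=
  ∀ (A : Formation) (X : Type) [Group X] [Finite X] [Nontrivial X], A ≠ 1 →
    (∀ (M : Type) [Group M] [Finite M], A.Mem M → Group.IsNilpotent M) →
    (∀ (M : Type) [Group M] [Finite M], A.Mem M → A.Mem (RegularWreathProduct M X)) →
    ∃ p : ℕ, p.Prime ∧ IsPGroup p X ∧
      ∀ (M : Type) [Group M] [Finite M], A.Mem M → IsPGroup p M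

/-- **Task F** (Neumann: formations of nilpotent groups are subgroup closed). -/
def TaskF : Prop :=
  ∀ (A : Formation) (G : Type) [Group G] [Finite G], Group.IsNilpotent G → A.Mem G →
    ∀ H : Subgroup G, A.Mem H

/-- **Task G**. -/
def TaskG : Prop :=
  ∀ (p : ℕ) [Fact p.Prime] (A : Formation) (X : Type) [Group X] [Finite X] [Nontrivial X],
    IsPGroup p X →
    (∀ (M : Type) [Group M] [Finite M], A.Mem M → IsPGroup p M) →
    (∀ (M : Type) [Group M] [Finite M], A.Mem M → ∀ H : Subgroup M, A.Mem H) →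
    (∀ (M : Type) [Group M] [Finite M], A.Mem M → A.Mem (RegularWreathProduct M X)) →
    ∀ (P : Type) [Group P] [Finite P], IsPGroup p P → A.Mem P

/-- **Task H1** (the residual of a wreath product is split). -/
def TaskH1 : Prop :=
  ∀ (D : Formation) (M G : Type) [Group M] [Finite M] [Group G] [Finite G],
    D.residual G ≠ ⊥ → ∀ u ∈ D.residual (RegularWreathProduct M G),
      (⟨u.left, 1⟩ : RegularWreathProduct M G) ∈ D.residual (RegularWreathProduct M G)

/-- **Task H2**. -/
def TaskH2 : Prop :=
  TaskH1 → ∀ (C D : Formation) (M G K : Type) [Group M] [Finite M] [Group G] [Finite G]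
    [Group K] [Finite K] (z : K), D.Mem K →
    (∀ (Y : Type) [Group Y] [Finite Y], D.Mem Y → ∀ u : Y, orderOf u ≤ orderOf z) →
    D.residual G ≠ ⊥ →
    C.Mem (D.residual (RegularWreathProduct M G)) →
    C.Mem (D.residual (sliceSub (D.residual (RegularWreathProduct M G)) K))

/-- **Task H3**. -/
def TaskH3 : Prop :=
  ∀ (A B : Formation) (M G K : Type) [Group M] [Finite M] [Group G] [Finite G]
    [Group K] [Finite K] (x y : G) (R : Subgroup (RegularWreathProduct M G)) [R.Normal],
    (∃ u ∈ R, u.right = y) → y ∉ Subgroup.zpowers x → B.Mem G →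
    (∀ (Y : Type) [Group Y] [Finite Y], B.Mem Y → ∀ u : Y, orderOf u ≤ orderOf x) →
    A.Mem (B.residual (sliceSub R K)) →
    A.Mem (RegularWreathProduct M (B.residual K))

/-- **Task N** (quotients of nilpotent groups). -/
def TaskN : Prop :=
  ∀ (M : Type) [Group M] [Finite M], Group.IsNilpotent M → ∀ (q : ℕ) [Fact q.Prime],
    q ∣ Nat.card M → ∃ f : M →* Zp q, Function.Surjective f

/-- **Task I**. -/
def TaskI : Prop :=
  TaskN → ∀ (e : ℕ) (A : Formation) (K : Type) [Group K] [Finite K], A ≠ 1 →
    (∀ (M : Type) [Group M] [Finite M], A.Mem M →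
      Group.IsNilpotent (powSub e (RegularWreathProduct M K))) →
    (∃ u : K, u ^ e ≠ 1) →
    ∃ p : ℕ, p.Prime ∧ ∀ (M : Type) [Group M] [Finite M], A.Mem M → IsPGroup p M

/-- **Task J**. -/
def TaskJ : Prop :=
  ∀ (p : ℕ) [Fact p.Prime] (A B C D : Formation), A * B = C * D →
    (∀ (M : Type) [Group M] [Finite M], A.Mem M → IsPGroup p M) →
    (¬ ∀ (M : Type) [Group M] [Finite M], C.Mem M → IsPGroup p M) →
    ∀ (K₀ : Type) [Group K₀] [Finite K₀], D.Mem K₀ →
    (∀ (K : Type) [Group K] [Finite K], D.Mem K → (∃ f : K →* K₀, Function.Surjective f) →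
      ∀ (L : Type) [Group L] [Finite L], C.Mem L → (C * D).Mem (RegularWreathProduct L K)) →
    ∀ (K : Type) [Group K] [Finite K], D.Mem K → B.Mem K

/-- **Task Q** (abelian wreath products). -/
def TaskQ : Prop :=
  ∀ (p : ℕ) [Fact p.Prime] (K V : Type) [Group K] [Finite K] [Group V] [Finite V] (f : K →* V),
    Function.Surjective f →
    ∃ g : RegularWreathProduct (Zp p) K →* RegularWreathProduct (Zp p) V, Function.Surjective g

/-- **Task K** (thin groups). -/
def TaskK : Prop :=
  TaskQ → ∀ (e : ℕ) (C D : Formation), 0 < e → C ≠ 1 → NilPow e (C * D) →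
    (∀ (p : ℕ) [Fact p.Prime], ∃ (V : Type) (_ : Group V) (_ : Finite V), D.Mem V ∧
      ¬ D.Mem (RegularWreathProduct (Zp p) V)) →
    ∃ (K₀ : Type) (_ : Group K₀) (_ : Finite K₀), D.Mem K₀ ∧
      ∀ (K : Type) [Group K] [Finite K] (f : K →* K₀), Function.Surjective f → D.Mem K →
        ThinAt D K

/-- **Task L**: in a wreath product `M ≀ K` a nilpotent normal subgroup not contained in the base
group forces `M` to be nilpotent. -/
def TaskL : Prop :=
  ∀ (M K : Type) [Group M] [Finite M] [Group K] [Finite K]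
    (Q : Subgroup (RegularWreathProduct M K)) [Q.Normal], Group.IsNilpotent Q →
    (∃ q ∈ Q, q.right ≠ 1) → Group.IsNilpotent M

end H355R3.UF
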