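import Mathlib
import Pool.Agent.H355R3.UF.Stmts

set_option autoImplicit false

namespace H355R3.UF

open H355R3 RegularWreathProduct

/-- the formation of all `P` with `P ≀ K ∈ B` -/
def wrPart (B : Formation) (K : Type) [Group K] [Finite K] (hK : B.Mem K) : Formation :=
  Formation.mk' (fun P _ _ => B.Mem (RegularWreathProduct P K))
    ⟨PUnit, inferInstance, inferInstance, by
      refine B.mem_of_two (rightHom : RegularWreathProduct PUnit K →* K) rightHom
        rightHom_surj rightHom_surj ?_ hK hK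
      intro g h1 _
      exact ext_of_coord g h1 (fun _ => Subsingleton.elim _ _)⟩
    (fun f hf h => B.mem_of_surjective (mapLeft f) (mapLeft_surj f hf) h)
    (by
      intro G H₁ H₂ _ _ _ _ _ _ f₁ f₂ hf₁ hf₂ hinj h1 h2
      refine B.mem_of_two (mapLeft f₁) (mapLeft f₂) (mapLeft_surj _ hf₁) (mapLeft_surj _ hf₂)
        ?_ h1 h2
      intro w hw1 hw2
      refine ext_of_coord w ?_ fun x => hinj _ ?_ ?_
      · exact congrArg RegularWreathProduct.right hw1
      · exact congrFun (congrArg RegularWreathProduct.left hw1) x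
      · exact congrFun (congrArg RegularWreathProduct.left hw2) x)

theorem mul_wr_iff (A B : Formation) (K : Type) [Group K] [Finite K] (hK : B.Mem K)
    (P : Type) [Group P] [Finite P] :
    (A * B).Mem (RegularWreathProduct P K) ↔ (A * wrPart B K hK).Mem P := by
  rw [Formation.mul_mem_iff, Formation.mul_mem_iff]
  set R := B.residual (RegularWreathProduct P K) with hRdef
  have hR : ∀ r ∈ R, r.right = 1 := fun r hr =>
    ((B.residual_le_ker_iff (rightHom : RegularWreathProduct P K →* K) rightHom_surj).2 hK) hr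
  have hn : R.Normal := inferInstance
  have hrange : (coord R hR 1).range = (wrPart B K hK).residual P := by
    apply le_antisymm
    · rintro _ ⟨r, rfl⟩
      have hle : R ≤ (mapLeft (U := K)
          (QuotientGroup.mk' ((wrPart B K hK).residual P))).ker := by
        rw [hRdef, B.residual_le_ker_iff _ (mapLeft_surj _ (QuotientGroup.mk'_surjective _))]
        exact (wrPart B K hK).mem_quot_residual P
      have h1 := hle r.2
      rw [MonoidHom.mem_ker] at h1
      have h2 := congrFun (congrArg RegularWreathProduct.left h1) 1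
      exact (QuotientGroup.eq_one_iff _).1 h2
    · have hMn : (coord R hR 1).range.Normal := coord_range_normal _ hn hR 1
      rw [Formation.residual_le_iff _ hMn]
      refine ⟨hMn, ?_⟩
      show B.Mem (RegularWreathProduct (P ⧸ (coord R hR 1).range) K)
      rw [← B.residual_le_ker_iff (mapLeft (QuotientGroup.mk' (coord R hR 1).range))
        (mapLeft_surj _ (QuotientGroup.mk'_surjective _))]
      intro r hr
      rw [MonoidHom.mem_ker]
      apply RegularWreathProduct.ext
      · funext x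
        show ((r.left x : P) : P ⧸ (coord R hR 1).range) = 1
        rw [QuotientGroup.eq_one_iff, ← coord_range_eq _ inferInstance hR x]
        exact ⟨⟨r, hr⟩, rfl⟩
      · exact hR r hr
  constructor
  · intro h
    rw [← hrange]
    exact A.mem_of_surjective (coord R hR 1).rangeRestrict
      (MonoidHom.rangeRestrict_surjective _) h
  · intro h
    rw [← hrange] at h
    refine A.mem_of_family (ι := K) (fun x => (coord R hR x).range)
      (fun x => (coord R hR x).rangeRestrict)
      (fun x => MonoidHom.rangeRestrict_surjective _) ?_ ?_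
    · intro r hr
      refine Subtype.ext (ext_of_coord (r : RegularWreathProduct P K) (hR r r.2) fun x => ?_)
      exact congrArg Subtype.val (hr x)
    · intro x
      rw [coord_range_eq R hn hR x]
      exact h

theorem wrPart_eq_one {B : Formation} {K : Type} [Group K] [Finite K] (hK : B.Mem K)
    (h : ThinAt B K) : wrPart B K hK = 1 := by
  apply Formation.ext_mem
  intro G _ _
  rw [Formation.one_mem_iff]
  exact ⟨fun hG => h G hG, fun _ => (wrPart B K hK).mem_of_subsingleton⟩

theorem thin_mem_iff (A : Formation) {B : Formation} {K : Type} [Group K] [Finite K]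
    (hK : B.Mem K) (h : ThinAt B K) (P : Type) [Group P] [Finite P] :
    (A * B).Mem (RegularWreathProduct P K) ↔ A.Mem P := by
  rw [mul_wr_iff A B K hK P, wrPart_eq_one hK h, mul_one]

theorem right_cancel {A A' D : Formation} {K : Type} [Group K] [Finite K] (hK : D.Mem K)
    (ht : ThinAt D K) (h : A * D = A' * D) : A = A' := by
  apply Formation.ext_mem
  intro P _ _
  rw [← thin_mem_iff A hK ht, h, thin_mem_iff A' hK ht]

/-- `D` is not closed under `V ↦ Z_p ≀ V`, for every prime `p` -/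
def NonAbs (D : Formation) : Prop :=
  ∀ (p : ℕ) [Fact p.Prime], ∃ (V : Type) (_ : Group V) (_ : Finite V), D.Mem V ∧
      ¬ D.Mem (RegularWreathProduct (Zp p) V)

theorem pForm_mul_of_abs (tB : TaskB) {p : ℕ} [hp : Fact p.Prime] {D : Formation}
    (h : ∀ (V : Type) [Group V] [Finite V], D.Mem V → D.Mem (RegularWreathProduct (Zp p) V)) :
    pForm p * D = D := by
  apply Formation.ext_mem
  intro G _ _
  constructor
  · intro hG
    exact pForm_mul_eq D p hp.out (fun m X _ _ hX _ K _ _ f hf h1 h2 =>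
      tB p D X (h X hX) K f hf h1 h2) G hG
  · exact right_le_mul _ _

theorem Zp_not_subsingleton (p : ℕ) [hp : Fact p.Prime] : ¬ Subsingleton (Zp p) := by
  intro h
  have h3 : Nat.card (Zp p) = 1 := by
    rw [Nat.card_eq_one_iff_unique]
    exact ⟨h, ⟨1⟩⟩
  rw [card_Zp] at h3
  exact hp.out.one_lt.ne' h3

theorem pForm_ne_one (p : ℕ) [Fact p.Prime] : pForm p ≠ 1 := by
  intro h
  have h1 : (pForm p).Mem (Zp p) := Zp_isPGroup p
  rw [h, Formation.one_mem_iff] at h1
  exact Zp_not_subsingleton p h1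

/-- arbitrarily long factorizations -/
def Long (F : Formation) : Prop :=
  ∀ n : ℕ, ∃ l : List Formation, (∀ A ∈ l, A ≠ 1) ∧ l.prod = F ∧ n ≤ l.length

theorem Long.not_bdd {F : Formation} (h : Long F) : ¬ Bdd F := by
  rintro ⟨N, hN⟩
  obtain ⟨l, h1, h2, h3⟩ := h (N + 1)
  have := hN l h1 h2
  omega

theorem Long.mul_left {A B : Formation} (h : Long B) : Long (A * B) := by
  intro n
  obtain ⟨l, h1, h2, h3⟩ := h n
  by_cases hA : A = 1
  · exact ⟨l, h1, by rw [h2, hA, one_mul], h3⟩
  · refine ⟨A :: l, ?_, by rw [List.prod_cons, h2], by rw [List.length_cons]; omega⟩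
    intro X hX
    rw [List.mem_cons] at hX
    rcases hX with rfl | hX
    · exact hA
    · exact h1 X hX

theorem Long.mul_right {A B : Formation} (h : Long A) : Long (A * B) := by
  intro n
  obtain ⟨l, h1, h2, h3⟩ := h n
  by_cases hB : B = 1
  · exact ⟨l, h1, by rw [h2, hB, mul_one], h3⟩
  · refine ⟨l ++ [B], ?_, by rw [List.prod_append, h2, List.prod_singleton], by
      rw [List.length_append]; omega⟩
    intro X hX
    rw [List.mem_append, List.mem_singleton] at hX
    rcases hX with hX | rfl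
    · exact h1 X hX
    · exact hB

theorem long_of_mul {P B : Formation} (hP : P ≠ 1) (h : P * B = B) : Long B := by
  intro n
  induction n with
  | zero =>
    by_cases hB : B = 1
    · exact ⟨[], by simp, by simp [hB], by simp⟩
    · exact ⟨[B], by simpa using hB, by simp, by simp⟩
  | succ n ih =>
    obtain ⟨l, h1, h2, h3⟩ := ih
    refine ⟨P :: l, ?_, by rw [List.prod_cons, h2, h], by rw [List.length_cons]; omega⟩
    intro X hX
    rw [List.mem_cons] at hX
    rcases hX with rfl | hX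
    · exact hP
    · exact h1 X hX

theorem nonAbs_of_bdd (tB : TaskB) {F : Formation} (h : Bdd F) : NonAbs F := by
  intro p hp
  by_contra hc
  push Not at hc
  exact (long_of_mul (pForm_ne_one p)
    (pForm_mul_of_abs tB (fun V _ _ hV => hc V _ _ hV))).not_bdd h

theorem bdd_left {A B : Formation} (h : Bdd (A * B)) : Bdd A := by
  by_contra hc
  have hl : Long A := by
    intro n
    unfold Bdd at hc
    push Not at hc
    obtain ⟨l, h1, h2, h3⟩ := hc n
    exact ⟨l, h1, h2, h3.le⟩
  exact hl.mul_right.not_bdd h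

theorem bdd_right {A B : Formation} (h : Bdd (A * B)) : Bdd B := by
  by_contra hc
  have hl : Long B := by
    intro n
    unfold Bdd at hc
    push Not at hc
    obtain ⟨l, h1, h2, h3⟩ := hc n
    exact ⟨l, h1, h2, h3.le⟩
  exact hl.mul_left.not_bdd h

theorem bdd_of_nonAbs {e : ℕ} (he : 0 < e) {F : Formation} (hF : NilPow e F) (h : NonAbs F) :
    Bdd F := by
  by_contra hb
  obtain ⟨p, hp, hE⟩ := exists_uniform_prime he F hF hb
  have : Fact p.Prime := ⟨hp⟩
  obtain ⟨V, i, f, hV, hV'⟩ := h p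
  exact hV' (wreath_of_extP (hE _) V hV le_rfl)

theorem nonAbs_prod (tB : TaskB) (tQ : TaskQ) (tK : TaskK) {e : ℕ} (he : 0 < e)
    (l : List Formation) : (∀ A ∈ l, Indec A) → NilPow e l.prod → NonAbs l.prod := by
  induction l with
  | nil =>
    intro _ _ p hp
    refine ⟨PUnit, inferInstance, inferInstance, Formation.mem_of_subsingleton _, ?_⟩
    intro h
    rw [List.prod_nil, Formation.one_mem_iff] at h
    apply Zp_not_subsingleton p
    refine ⟨fun a b => ?_⟩
    have h1 : (⟨fun _ => a, 1⟩ : RegularWreathProduct (Zp p) PUnit) = ⟨fun _ => b, 1⟩ :=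
      Subsingleton.elim _ _
    exact congrFun (congrArg RegularWreathProduct.left h1) PUnit.unit
  | cons D₁ l ih =>
    intro hl hN p hp
    by_contra hc
    push Not at hc
    rw [List.prod_cons] at hN hc
    have hD' := ih (fun A hA => hl A (List.mem_cons_of_mem _ hA)) hN.right
    have hD₁ := hl D₁ List.mem_cons_self
    obtain ⟨K₀, i, f, hK₀, hthin⟩ := tK tQ e D₁ l.prod he hD₁.1 hN hD'
    have h1 := pForm_mul_of_abs tB (p := p) (D := D₁ * l.prod) (fun V _ _ hV => hc V _ _ hV)
    rw [← mul_assoc] at h1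
    have h2 := right_cancel hK₀ (hthin K₀ (MonoidHom.id _) Function.surjective_id hK₀) h1
    exact hD₁.2 ⟨pForm p, D₁, pForm_ne_one p, hD₁.1, h2.symm⟩

/-- the constant functions -/
def constHom (T U : Type) [Group T] [Group U] : T →* RegularWreathProduct T U where
  toFun t := ⟨fun _ => t, 1⟩
  map_one' := rfl
  map_mul' a b := by
    apply RegularWreathProduct.ext
    · funext x
      simp
    · simp

theorem constHom_injective (T U : Type) [Group T] [Group U] :
    Function.Injective (constHom T U) := by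
  intro a b h
  exact congrFun (congrArg RegularWreathProduct.left h) 1

theorem powSub_map_le {G H : Type} [Group G] [Group H] (e : ℕ) (f : G →* H) :
    (powSub e G).map f ≤ powSub e H := by
  rw [powSub, MonoidHom.map_closure, powSub, Subgroup.closure_le]
  rintro _ ⟨_, ⟨x, rfl⟩, rfl⟩
  apply Subgroup.subset_closure
  exact ⟨f x, by simp⟩

theorem nilpotent_powSub_of_injective {G H : Type} [Group G] [Group H] (e : ℕ) (f : G →* H)
    (hf : Function.Injective f) (h : Group.IsNilpotent (powSub e H)) :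
    Group.IsNilpotent (powSub e G) := by
  let g : powSub e G →* powSub e H :=
    (f.comp (powSub e G).subtype).codRestrict (powSub e H)
      (fun x => powSub_map_le e f ⟨x, x.2, rfl⟩)
  refine nilpotent_of_injective g ?_ h
  intro a b hab
  apply Subtype.ext
  apply hf
  exact congrArg Subtype.val hab

theorem nilPow_left {e : ℕ} {A B : Formation} {K : Type} [Group K] [Finite K] (hK : B.Mem K)
    (ht : ThinAt B K) (h : NilPow e (A * B)) : NilPow e A := by
  intro X _ _ hX
  exact nilpotent_powSub_of_injective e (constHom X K) (constHom_injective X K)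
    (h _ ((thin_mem_iff A hK ht X).2 hX))

theorem long_pForm (tB : TaskB) (p : ℕ) [Fact p.Prime] : Long (pForm p) :=
  long_of_mul (pForm_ne_one p) (pForm_mul_of_abs tB (fun _ _ _ hV =>
    (wreath_isPGroup (Zp_isPGroup p) hV : (pForm p).Mem _)))

theorem long_of_all (tB : TaskB) {p : ℕ} [Fact p.Prime] {A : Formation}
    (h1 : ∀ (M : Type) [Group M] [Finite M], A.Mem M → IsPGroup p M)
    (h2 : ∀ (P : Type) [Group P] [Finite P], IsPGroup p P → A.Mem P) : Long A := by
  have : A = pForm p := by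
    apply Formation.ext_mem
    intro G _ _
    exact ⟨fun h => h1 G h, fun h => h2 G h⟩
  rw [this]
  exact long_pForm tB p

theorem long_of_closed (tB : TaskB) (tD : TaskD) (tE : TaskE) (tF : TaskF) (tG : TaskG)
    {e : ℕ} (he : 0 < e) {A : Formation} (hA : A ≠ 1) (hN : NilPow e A) (X : Type) [Group X]
    [Finite X] [Nontrivial X]
    (hcl : ∀ (M : Type) [Group M] [Finite M], A.Mem M → A.Mem (RegularWreathProduct M X)) :
    Long A := by
  have h1 := tD e A X he hN hcl
  obtain ⟨p, hp, hX, hAp⟩ := tE A X hA h1 hcl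
  have : Fact p.Prime := ⟨hp⟩
  exact long_of_all tB hAp
    (tG p A X hX hAp (fun M _ _ hM H => tF A M (h1 M hM) hM H) hcl)

theorem prod_mem (F : Formation) {G H : Type} [Group G] [Finite G] [Group H] [Finite H]
    (hG : F.Mem G) (hH : F.Mem H) : F.Mem (G × H) := by
  refine F.mem_of_two (MonoidHom.fst G H) (MonoidHom.snd G H) Prod.fst_surjective
    Prod.snd_surjective ?_ hG hH
  rintro ⟨a, b⟩ h1 h2
  exact Prod.ext h1 h2

theorem lc_le (tB : TaskB) (tC1 : TaskC1) (tC2 : TaskC2) (tC : TaskC) (tD : TaskD) (tE : TaskE)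
    (tF : TaskF) (tG : TaskG) (tQ : TaskQ) (tK : TaskK) {e : ℕ} (he : 0 < e)
    {A B B' : Formation} (hA : A ≠ 1) (hN : NilPow e (A * B)) (hb : Bdd (A * B))
    (h : A * B = A * B') (hle : ∀ (G : Type) [Group G] [Finite G], B.Mem G → B'.Mem G) :
    B = B' := by
  apply Formation.ext_mem
  intro G _ _
  refine ⟨fun hG => hle G hG, fun hG => ?_⟩
  by_contra hGB
  obtain ⟨K₁, _, _, hK₁, hthin₁⟩ := tK tQ e A B he hA hN (nonAbs_of_bdd tB (bdd_right hb))
  have hN' : NilPow e (A * B') := by rw [← h]; exact hN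
  have hb' : Bdd (A * B') := by rw [← h]; exact hb
  obtain ⟨K₂, _, _, hK₂, hthin₂⟩ := tK tQ e A B' he hA hN' (nonAbs_of_bdd tB (bdd_right hb'))
  have hG' : B'.Mem (G × (K₁ × K₂)) := prod_mem B' hG (prod_mem B' (hle K₁ hK₁) hK₂)
  have ht' : ThinAt B' (G × (K₁ × K₂)) :=
    hthin₂ _ ((MonoidHom.snd K₁ K₂).comp (MonoidHom.snd G (K₁ × K₂)))
      (Prod.snd_surjective.comp Prod.snd_surjective) hG'
  have hNG : ¬ B.Mem (G × (K₁ × K₂)) := by
    intro hc
    exact hGB (B.mem_of_surjective (MonoidHom.fst G (K₁ × K₂)) Prod.fst_surjective hc)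
  have hNnt : Nontrivial (B.residual (G × (K₁ × K₂))) := by
    rw [Subgroup.nontrivial_iff_ne_bot]
    intro hc
    exact hNG (B.residual_eq_bot_iff.1 hc)
  -- thinness of the quotient
  have hker : B.residual (G × (K₁ × K₂)) ≤
      ((MonoidHom.fst K₁ K₂).comp (MonoidHom.snd G (K₁ × K₂))).ker :=
    (B.residual_le_ker_iff _ (Prod.fst_surjective.comp Prod.snd_surjective)).2 hK₁
  have htq : ThinAt B ((G × (K₁ × K₂)) ⧸ B.residual (G × (K₁ × K₂))) := by
    refine hthin₁ _ (QuotientGroup.lift _ _ hker) ?_ (B.mem_quot_residual _)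
    intro k
    exact ⟨((1, (k, 1)) : G × (K₁ × K₂)), rfl⟩
  have hcl : ∀ (M : Type) [Group M] [Finite M], A.Mem M →
      A.Mem (RegularWreathProduct M (B.residual (G × (K₁ × K₂)))) := by
    intro M _ _ hM
    apply tC tC1 tC2 A B M (G × (K₁ × K₂))
    · intro T _ _ _ f hf hT
      have := htq T hT
      exact not_subsingleton T this
    · have h1 := (thin_mem_iff A hG' ht' M).2 hM
      rw [← h] at h1
      exact h1
  have htK₁ : ThinAt B K₁ := hthin₁ K₁ (MonoidHom.id _) Function.surjective_id hK₁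
  exact (long_of_closed tB tD tE tF tG he hA (nilPow_left hK₁ htK₁ hN) _ hcl).not_bdd
    (bdd_left hb)

theorem exists_max_order (B : Formation) (n : ℕ)
    (hb : ∀ (X : Type) [Group X] [Finite X], B.Mem X → ∀ x : X, orderOf x ≤ n) :
    ∃ (G : Type) (_ : Group G) (_ : Finite G) (x : G), B.Mem G ∧
      ∀ (X : Type) [Group X] [Finite X], B.Mem X → ∀ u : X, orderOf u ≤ orderOf x := by
  let S : Set ℕ := {m | ∃ (G : Type) (_ : Group G) (_ : Finite G) (x : G), B.Mem G ∧
    orderOf x = m}
  have hne : S.Nonempty :=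
    ⟨_, PUnit, inferInstance, inferInstance, 1, B.mem_of_subsingleton, rfl⟩
  have hbdd : BddAbove S := by
    refine ⟨n, ?_⟩
    rintro m ⟨G, _, _, x, hG, rfl⟩
    exact hb G hG x
  obtain ⟨G, i, f, x, hG, hx⟩ := Nat.sSup_mem hne hbdd
  refine ⟨G, i, f, x, hG, ?_⟩
  intro X _ _ hX u
  rw [hx]
  exact le_csSup hbdd ⟨X, inferInstance, inferInstance, u, hX, rfl⟩

theorem thinAt_of_max {B : Formation} {G : Type} [Group G] [Finite G] (x : G)
    (h : ∀ (X : Type) [Group X] [Finite X], B.Mem X → ∀ u : X, orderOf u ≤ orderOf x) :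
    ThinAt B G := by
  intro P _ _ hP
  by_contra hc
  have : Nontrivial P := not_subsingleton_iff_nontrivial.1 hc
  obtain ⟨w, hw⟩ := exists_orderOf_wreath (T := P) x
  have h1 := h _ hP w
  have h2 := orderOf_pos x
  omega

theorem nc_bounded (tB : TaskB) (tD : TaskD) (tE : TaskE)
    (tF : TaskF) (tG : TaskG) (tH1 : TaskH1) (tH2 : TaskH2) (tH3 : TaskH3)
    {e : ℕ} (he : 0 < e)
    {A B C D : Formation} (hA : A ≠ 1) (hN : NilPow e (A * B)) (hb : Bdd (A * B))
    (h : A * B = C * D)
    (hBe : ∀ (X : Type) [Group X] [Finite X], B.Mem X → ∀ x : X, x ^ e = 1)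
    (hDe : ∀ (X : Type) [Group X] [Finite X], D.Mem X → ∀ x : X, x ^ e = 1)
    (G₀ : Type) [Group G₀] [Finite G₀] (hG₀ : B.Mem G₀) (hG₀' : ¬ D.Mem G₀)
    (K₀ : Type) [Group K₀] [Finite K₀] (hK₀ : D.Mem K₀) (hK₀' : ¬ B.Mem K₀) : False := by
  obtain ⟨G₁, _, _, x₁, hG₁, hx₁⟩ := exists_max_order B e (fun X _ _ hX x =>
    Nat.le_of_dvd he (orderOf_dvd_of_pow_eq_one (hBe X hX x)))
  obtain ⟨K₁, _, _, z₁, hK₁, hz₁⟩ := exists_max_order D e (fun X _ _ hX x =>
    Nat.le_of_dvd he (orderOf_dvd_of_pow_eq_one (hDe X hX x)))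
  have hG : B.Mem (G₀ × G₁) := prod_mem B hG₀ hG₁
  have hK : D.Mem (K₀ × K₁) := prod_mem D hK₀ hK₁
  have hox : orderOf ((1, x₁) : G₀ × G₁) = orderOf x₁ :=
    orderOf_injective (MonoidHom.inr G₀ G₁) (fun a b hab => congrArg Prod.snd hab) x₁
  have hoz : orderOf ((1, z₁) : K₀ × K₁) = orderOf z₁ :=
    orderOf_injective (MonoidHom.inr K₀ K₁) (fun a b hab => congrArg Prod.snd hab) z₁
  have hres₀ : D.residual G₀ ≠ ⊥ := fun hc => hG₀' (D.residual_eq_bot_iff.1 hc)
  have hres : D.residual (G₀ × G₁) ≠ ⊥ := by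
    intro hc
    exact hG₀' (D.mem_of_surjective (MonoidHom.fst G₀ G₁) Prod.fst_surjective
      (D.residual_eq_bot_iff.1 hc))
  have hresK : B.residual (K₀ × K₁) ≠ ⊥ := by
    intro hc
    exact hK₀' (B.mem_of_surjective (MonoidHom.fst K₀ K₁) Prod.fst_surjective
      (B.residual_eq_bot_iff.1 hc))
  have hnt : Nontrivial (B.residual (K₀ × K₁)) := (Subgroup.nontrivial_iff_ne_bot _).2 hresK
  obtain ⟨y, hy, hyx⟩ : ∃ y ∈ D.residual (G₀ × G₁), y ∉ Subgroup.zpowers ((1, x₁) : G₀ × G₁) := by
    obtain ⟨⟨y₀, hy₀⟩, hne⟩ := @exists_ne _ ((Subgroup.nontrivial_iff_ne_bot _).2 hres₀)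
      (1 : D.residual G₀)
    have hmap := D.map_residual (MonoidHom.fst G₀ G₁) Prod.fst_surjective
    rw [← hmap] at hy₀
    obtain ⟨y, hy, hyy⟩ := hy₀
    refine ⟨y, hy, ?_⟩
    rintro ⟨n, hn⟩
    apply hne
    apply Subtype.ext
    have h1 : y.1 = 1 := by
      rw [← hn]
      simp
    exact hyy.symm.trans h1
  have hBmax : ∀ (Y : Type) [Group Y] [Finite Y], B.Mem Y → ∀ u : Y,
      orderOf u ≤ orderOf ((1, x₁) : G₀ × G₁) := by
    intro Y _ _ hY u
    rw [hox]
    exact hx₁ Y hY u
  have hDmax : ∀ (Y : Type) [Group Y] [Finite Y], D.Mem Y → ∀ u : Y,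
      orderOf u ≤ orderOf ((1, z₁) : K₀ × K₁) := by
    intro Y _ _ hY u
    rw [hoz]
    exact hz₁ Y hY u
  have ht : ThinAt B (G₀ × G₁) := thinAt_of_max _ hBmax
  have hcl : ∀ (M : Type) [Group M] [Finite M], A.Mem M →
      A.Mem (RegularWreathProduct M (B.residual (K₀ × K₁))) := by
    intro M _ _ hM
    have h1 := (thin_mem_iff A hG ht M).2 hM
    rw [h, Formation.mul_mem_iff] at h1
    have h2 := tH2 tH1 C D M (G₀ × G₁) (K₀ × K₁) (1, z₁) hK hDmax hres h1
    have h3 : (C * D).Mem (sliceSub (D.residual (RegularWreathProduct M (G₀ × G₁)))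
      (K₀ × K₁)) := h2
    rw [← h, Formation.mul_mem_iff] at h3
    refine tH3 A B M (G₀ × G₁) (K₀ × K₁) (1, x₁) y _ ?_ hyx hG hBmax h3
    have hmap := D.map_residual (rightHom : RegularWreathProduct M (G₀ × G₁) →* _) rightHom_surj
    rw [← hmap] at hy
    obtain ⟨u, hu, hu'⟩ := hy
    exact ⟨u, hu, hu'⟩
  exact (long_of_closed tB tD tE tF tG he hA (nilPow_left hG ht hN) _ hcl).not_bdd
    (bdd_left hb)

theorem ptype_step (tB : TaskB) (tB2 : TaskB2) (tC1 : TaskC1) (tC2 : TaskC2) (tC : TaskC)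
    {p : ℕ} [hp : Fact p.Prime] {A B C D : Formation} (h : A * B = C * D)
    (hAp : ∀ (M : Type) [Group M] [Finite M], A.Mem M → IsPGroup p M)
    (hCp : ∀ (M : Type) [Group M] [Finite M], C.Mem M → IsPGroup p M)
    (K₀ : Type) [Group K₀] [Finite K₀] (hK₀ : B.Mem K₀)
    (hthin : ∀ (K : Type) [Group K] [Finite K] (f : K →* K₀), Function.Surjective f → B.Mem K →
        ThinAt B K)
    (G : Type) [Group G] [Finite G] (hG : B.Mem G) (hG' : ¬ D.Mem G) :
    ∃ (Y : Type) (_ : Group Y) (_ : Finite Y), Nontrivial Y ∧ IsPGroup p Y ∧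
      ∀ (M : Type) [Group M] [Finite M], A.Mem M → C.Mem (RegularWreathProduct M Y) := by
  have hG₁ : B.Mem (G × K₀) := prod_mem B hG hK₀
  have ht : ThinAt B (G × K₀) := hthin _ (MonoidHom.snd G K₀) Prod.snd_surjective hG₁
  have hnD : ¬ D.Mem (G × K₀) := fun hc =>
    hG' (D.mem_of_surjective (MonoidHom.fst G K₀) Prod.fst_surjective hc)
  have hCY : C.Mem (D.residual (G × K₀)) := by
    have h1 := right_le_mul A B hG₁
    rw [h] at h1
    exact h1
  have hYp := hCp _ hCY
  refine ⟨D.residual (G × K₀), inferInstance, inferInstance, ?_, hYp, ?_⟩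
  · rw [Subgroup.nontrivial_iff_ne_bot]
    intro hc
    exact hnD (D.residual_eq_bot_iff.1 hc)
  intro M _ _ hM
  apply tC tC1 tC2 C D M (G × K₀)
  · intro T _ _ _ f hf hT
    have hTp := card_of_simple_pgroup hp.out T ((hAp M hM).of_surjective f hf)
    obtain ⟨ε⟩ := nonempty_equiv_Zp T hTp
    exact hnD (tB2 tB p D (G × K₀) hYp
      (D.mem_of_surjective (mapLeft ε.toMonoidHom) (mapLeft_surj _ ε.surjective) hT))
  · have h1 := (thin_mem_iff A hG₁ ht M).2 hM
    rw [h] at h1
    exact h1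

theorem nc_unbounded (tB : TaskB) (tB2 : TaskB2) (tC1 : TaskC1) (tC2 : TaskC2) (tC : TaskC)
    (tF : TaskF) (tG : TaskG) (tN : TaskN) (tI : TaskI) (tJ : TaskJ) (tQ : TaskQ) (tK : TaskK)
    {e : ℕ} (he : 0 < e)
    {A B C D : Formation} (hA : A ≠ 1) (hC : C ≠ 1) (hN : NilPow e (A * B)) (hb : Bdd (A * B))
    (h : A * B = C * D)
    (X₁ : Type) [Group X₁] [Finite X₁] (hX₁ : B.Mem X₁) (x₁ : X₁) (hx₁ : x₁ ^ e ≠ 1)
    (G₀ : Type) [Group G₀] [Finite G₀] (hG₀ : B.Mem G₀) (hG₀' : ¬ D.Mem G₀)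
    (K₀ : Type) [Group K₀] [Finite K₀] (hK₀ : D.Mem K₀) (hK₀' : ¬ B.Mem K₀) : False := by
  obtain ⟨U, _, _, hU, hthinU⟩ := tK tQ e A B he hA hN (nonAbs_of_bdd tB (bdd_right hb))
  have hN' : NilPow e (C * D) := by rw [← h]; exact hN
  have hb' : Bdd (C * D) := by rw [← h]; exact hb
  obtain ⟨V, _, _, hV, hthinV⟩ := tK tQ e C D he hC hN' (nonAbs_of_bdd tB (bdd_right hb'))
  have hXU : B.Mem (X₁ × U) := prod_mem B hX₁ hU
  have htXU : ThinAt B (X₁ × U) := hthinU _ (MonoidHom.snd X₁ U) Prod.snd_surjective hXU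
  obtain ⟨p, hp, hAp⟩ := tI tN e A (X₁ × U) hA
    (fun M _ _ hM => hN _ ((thin_mem_iff A hXU htXU M).2 hM))
    ⟨(x₁, 1), fun hc => hx₁ (congrArg Prod.fst hc)⟩
  have : Fact p.Prime := ⟨hp⟩
  by_cases hCp : ∀ (M : Type) [Group M] [Finite M], C.Mem M → IsPGroup p M
  · obtain ⟨Y, _, _, hYnt, hYp, hY⟩ := ptype_step tB tB2 tC1 tC2 tC h hAp hCp U hU hthinU
      G₀ hG₀ hG₀'
    obtain ⟨X, _, _, hXnt, hXp, hX⟩ := ptype_step tB tB2 tC1 tC2 tC h.symm hCp hAp V hV hthinV
      K₀ hK₀ hK₀'
    have hher : ∀ (M : Type) [Group M] [Finite M], A.Mem M → ∀ H : Subgroup M, A.Mem H :=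
      fun M _ _ hM H => tF A M (hAp M hM).isNilpotent hM H
    have hcl : ∀ (M : Type) [Group M] [Finite M], A.Mem M →
        A.Mem (RegularWreathProduct M Y) := by
      intro M _ _ hM
      have h1 := hX _ (hY M hM)
      have h2 := hher _ h1 (constHom (RegularWreathProduct M Y) X).range
      exact A.iso (MonoidHom.ofInjective (constHom_injective _ _)).symm h2
    exact (long_of_all tB hAp (tG p A Y hYp hAp hher hcl)).not_bdd (bdd_left hb)
  · apply hK₀'
    refine tJ p A B C D h hAp hCp V hV ?_ K₀ hK₀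
    rintro K _ _ hK ⟨f, hf⟩ L _ _ hL
    exact (thin_mem_iff C hK (hthinV K f hf hK) L).2 hL

/-- all the tasks -/
structure All : Prop where
  tB : TaskB
  tB2 : TaskB2
  tC1 : TaskC1
  tC2 : TaskC2
  tC : TaskC
  tD : TaskD
  tE : TaskE
  tF : TaskF
  tG : TaskG
  tH1 : TaskH1
  tH2 : TaskH2
  tH3 : TaskH3
  tN : TaskN
  tI : TaskI
  tJ : TaskJ
  tQ : TaskQ
  tK : TaskK

theorem not_noncomparable (t : All) {e : ℕ} (he : 0 < e)
    {A B C D : Formation} (hA : A ≠ 1) (hC : C ≠ 1) (hN : NilPow e (A * B)) (hb : Bdd (A * B))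
    (h : A * B = C * D)
    (G₀ : Type) [Group G₀] [Finite G₀] (hG₀ : B.Mem G₀) (hG₀' : ¬ D.Mem G₀)
    (K₀ : Type) [Group K₀] [Finite K₀] (hK₀ : D.Mem K₀) (hK₀' : ¬ B.Mem K₀) : False := by
  by_cases hBe : ∀ (X : Type) [Group X] [Finite X], B.Mem X → ∀ x : X, x ^ e = 1
  · by_cases hDe : ∀ (X : Type) [Group X] [Finite X], D.Mem X → ∀ x : X, x ^ e = 1
    · exact nc_bounded t.tB t.tD t.tE t.tF t.tG t.tH1 t.tH2 t.tH3 he hA hN hb h hBe hDe
        G₀ hG₀ hG₀' K₀ hK₀ hK₀'
    · push Not at hDe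
      obtain ⟨X, _, _, hX, x, hx⟩ := hDe
      rw [h] at hN hb
      exact nc_unbounded t.tB t.tB2 t.tC1 t.tC2 t.tC t.tF t.tG t.tN t.tI t.tJ t.tQ t.tK he
        hC hA hN hb h.symm X hX x hx K₀ hK₀ hK₀' G₀ hG₀ hG₀'
  · push Not at hBe
    obtain ⟨X, _, _, hX, x, hx⟩ := hBe
    exact nc_unbounded t.tB t.tB2 t.tC1 t.tC2 t.tC t.tF t.tG t.tN t.tI t.tJ t.tQ t.tK he
      hA hC hN hb h X hX x hx G₀ hG₀ hG₀' K₀ hK₀ hK₀'

theorem comparable (t : All) {e : ℕ} (he : 0 < e)
    {A B C D : Formation} (hA : A ≠ 1) (hC : C ≠ 1) (hN : NilPow e (A * B)) (hb : Bdd (A * B))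
    (h : A * B = C * D) :
    (∀ (G : Type) [Group G] [Finite G], B.Mem G → D.Mem G) ∨
    (∀ (G : Type) [Group G] [Finite G], D.Mem G → B.Mem G) := by
  by_contra hc
  push Not at hc
  obtain ⟨⟨G, _, _, h1, h2⟩, ⟨K, _, _, h3, h4⟩⟩ := hc
  exact not_noncomparable t he hA hC hN hb h G h1 h2 K h3 h4

/-- **Left cancellation.** -/
theorem left_cancel (t : All) {e : ℕ} (he : 0 < e)
    {A B B' : Formation} (hA : A ≠ 1) (hN : NilPow e (A * B)) (hb : Bdd (A * B))
    (h : A * B = A * B') : B = B' := by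
  rcases comparable t he hA hA hN hb h with h1 | h1
  · exact lc_le t.tB t.tC1 t.tC2 t.tC t.tD t.tE t.tF t.tG t.tQ t.tK he hA hN hb h h1
  · rw [h] at hN hb
    exact (lc_le t.tB t.tC1 t.tC2 t.tC t.tD t.tE t.tF t.tG t.tQ t.tK he hA hN hb h.symm h1).symm

theorem last_factor_aux (t : All) {e : ℕ} (he : 0 < e)
    {A B C D : Formation} (hA : A ≠ 1) (hC : C ≠ 1) (hN : NilPow e (A * B)) (hb : Bdd (A * B))
    (h : A * B = C * D) (hBi : Indec B) (hDi : Indec D)
    (hle : ∀ (G : Type) [Group G] [Finite G], D.Mem G → B.Mem G) : A = C ∧ B = D := by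
  have hN' : NilPow e (C * D) := by rw [← h]; exact hN
  have hb' : Bdd (C * D) := by rw [← h]; exact hb
  obtain ⟨K, _, _, hK, hthin⟩ := t.tK t.tQ e C D he hC hN' (nonAbs_of_bdd t.tB (bdd_right hb'))
  have ht : ThinAt D K := hthin K (MonoidHom.id _) Function.surjective_id hK
  have hKB : B.Mem K := hle K hK
  have hCeq : C = A * wrPart B K hKB := by
    apply Formation.ext_mem
    intro P _ _
    rw [← thin_mem_iff C hK ht P, ← h, mul_wr_iff A B K hKB P]
  have h1 : A * B = A * (wrPart B K hKB * D) := by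
    rw [← mul_assoc, ← hCeq, h]
  have h2 := left_cancel t he hA hN hb h1
  have h3 : wrPart B K hKB = 1 := by
    by_contra hne
    exact hBi.2 ⟨_, D, hne, hDi.1, h2⟩
  rw [h3, one_mul] at h2
  rw [h3, mul_one] at hCeq
  exact ⟨hCeq.symm, h2⟩

theorem right_eq_one {A B : Formation} (h : A * B = 1) : B = 1 := by
  apply Formation.ext_mem
  intro G _ _
  constructor
  · intro hG
    rw [← h]
    exact right_le_mul A B hG
  · intro hG
    rw [Formation.one_mem_iff] at hG
    exact B.mem_of_subsingleton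

theorem last_factor (t : All) {e : ℕ} (he : 0 < e)
    {A B C D : Formation} (hN : NilPow e (A * B)) (hb : Bdd (A * B))
    (h : A * B = C * D) (hBi : Indec B) (hDi : Indec D) : A = C ∧ B = D := by
  by_cases hA : A = 1
  · have h1 : B = C * D := by rw [← h, hA, one_mul]
    have h2 : C = 1 := by
      by_contra hne
      exact hBi.2 ⟨C, D, hne, hDi.1, h1⟩
    rw [h2, one_mul] at h1
    exact ⟨hA.trans h2.symm, h1⟩
  by_cases hC : C = 1
  · have h1 : D = A * B := by rw [h, hC, one_mul]
    exact absurd h1 (fun h1 => hDi.2 ⟨A, B, hA, hBi.1, h1⟩)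
  rcases comparable t he hA hC hN hb h with h1 | h1
  · have hN' : NilPow e (C * D) := by rw [← h]; exact hN
    have hb' : Bdd (C * D) := by rw [← h]; exact hb
    obtain ⟨h2, h3⟩ := last_factor_aux t he hC hA hN' hb' h.symm hDi hBi h1
    exact ⟨h2.symm, h3.symm⟩
  · exact last_factor_aux t he hA hC hN hb h hBi hDi h1

theorem unique_aux (t : All) {e : ℕ} (he : 0 < e) (l : List Formation) :
    ∀ l' : List Formation, (∀ A ∈ l, Indec A) → (∀ A ∈ l', Indec A) → NilPow e l.prod →
      l.prod = l'.prod → l = l' := by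
  induction l using List.reverseRecOn with
  | nil =>
    intro l' _ hl' _ h
    rcases List.eq_nil_or_concat l' with h' | ⟨l₁, D, h'⟩
    · exact h'.symm
    · exfalso
      rw [List.concat_eq_append] at h'
      subst h'
      rw [List.prod_nil, List.prod_append, List.prod_singleton] at h
      exact (hl' D (by simp)).1 (right_eq_one h.symm)
  | append_singleton l B ih =>
    intro l' hl hl' hN h
    rcases List.eq_nil_or_concat l' with h' | ⟨l₁, D, h'⟩
    · exfalso
      subst h'
      rw [List.prod_nil, List.prod_append, List.prod_singleton] at h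
      exact (hl B (by simp)).1 (right_eq_one h)
    · rw [List.concat_eq_append] at h'
      subst h'
      have hb : Bdd (l ++ [B]).prod :=
        bdd_of_nonAbs he hN (nonAbs_prod t.tB t.tQ t.tK he _ hl hN)
      rw [List.prod_append, List.prod_singleton] at hN hb
      rw [List.prod_append, List.prod_singleton, List.prod_append, List.prod_singleton] at h
      obtain ⟨h1, h2⟩ := last_factor t he hN hb h (hl B (by simp)) (hl' D (by simp))
      have hN1 : NilPow e l.prod := by
        by_cases hA : l.prod = 1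
        · intro X _ _ hX
          rw [hA, Formation.one_mem_iff] at hX
          have : Subsingleton (powSub e X) := inferInstance
          infer_instance
        · obtain ⟨K, _, _, hK, hthin⟩ := t.tK t.tQ e l.prod B he hA hN
            (nonAbs_of_bdd t.tB (bdd_right hb))
          exact nilPow_left hK (hthin K (MonoidHom.id _) Function.surjective_id hK) hN
      rw [ih l₁ (fun A hA => hl A (by simp [hA])) (fun A hA => hl' A (by simp [hA])) hN1 h1, h2]

/-- **Unique factorization.** -/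
theorem unique_factorization (t : All) (M : Formation) (hM : M.OneGeneratedSaturated)
    (F : Formation) (hFM : ∀ (X : Type) [Group X] [Finite X], F.Mem X → M.Mem X)
    (l l' : List Formation) (hl : ∀ A ∈ l, Indec A) (hl' : ∀ A ∈ l', Indec A)
    (h : l.prod = F) (h' : l'.prod = F) : l = l' := by
  obtain ⟨G₀, i₀, f₀, h₀⟩ := hM
  have he : 0 < Monoid.exponent G₀ := Nat.pos_of_ne_zero Monoid.exponent_ne_zero_of_finite
  apply unique_aux t he l l' hl hl'
  · rw [h]
    intro X _ _ hX
    refine (h₀ X).1 (hFM X hX) (nilPowForm (Monoid.exponent G₀)) (nilPowForm_saturated _) ?_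
    show Group.IsNilpotent (powSub (Monoid.exponent G₀) G₀)
    have : powSub (Monoid.exponent G₀) G₀ = ⊥ := by
      rw [powSub_eq_bot_iff]
      exact fun x => Monoid.pow_exponent_eq_one x
    rw [this]
    infer_instance
  · rw [h, h']

end H355R3.UF
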