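import Mathlib
import Pool.Agent.H355R3.UF.Stmts

set_option autoImplicit false

namespace H355R3.UF

open H355R3

section cube

variable {G : Type} [Group G]

/-- lower face -/
def lo {n : ℕ} (f : (Fin (n + 1) → Bool) → G) : (Fin n → Bool) → G :=
  fun ε => f (Fin.cons false ε)

/-- upper face -/
def hi {n : ℕ} (f : (Fin (n + 1) → Bool) → G) : (Fin n → Bool) → G :=
  fun ε => f (Fin.cons true ε)

/-- cubes relative to a filtration -/
def Cub (Fil : ℕ → Subgroup G) : (n : ℕ) → ℕ → ((Fin n → Bool) → G) → Prop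
  | 0, i, f => f (fun _ => false) ∈ Fil i
  | n + 1, i, f => Cub Fil n i (lo f) ∧ Cub Fil n (i + 1) ((lo f)⁻¹ * hi f)

theorem lo_mul {n : ℕ} (f g : (Fin (n + 1) → Bool) → G) : lo (f * g) = lo f * lo g := rfl
theorem hi_mul {n : ℕ} (f g : (Fin (n + 1) → Bool) → G) : hi (f * g) = hi f * hi g := rfl
theorem lo_inv {n : ℕ} (f : (Fin (n + 1) → Bool) → G) : lo f⁻¹ = (lo f)⁻¹ := rfl
theorem hi_inv {n : ℕ} (f : (Fin (n + 1) → Bool) → G) : hi f⁻¹ = (hi f)⁻¹ := rfl

theorem cub_props (Fil : ℕ → Subgroup G) (hmono : ∀ i j, i ≤ j → Fil j ≤ Fil i)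
    (hcomm : ∀ i j a b, a ∈ Fil i → b ∈ Fil j → a * b * a⁻¹ * b⁻¹ ∈ Fil (i + j)) (n : ℕ) :
    (∀ i f, Cub Fil n i f → Cub Fil n i f⁻¹) ∧
    (∀ i f g, Cub Fil n i f → Cub Fil n i g → Cub Fil n i (f * g)) ∧
    (∀ i j f, i ≤ j → Cub Fil n j f → Cub Fil n i f) ∧
    (∀ i j f g, Cub Fil n i f → Cub Fil n j g → Cub Fil n (i + j) (f * g * f⁻¹ * g⁻¹)) := by
  induction n with
  | zero =>
    refine ⟨fun i f h => (Fil i).inv_mem h, fun i f g h1 h2 => (Fil i).mul_mem h1 h2,
      fun i j f hij h => hmono i j hij h, fun i j f g h1 h2 => hcomm i j _ _ h1 h2⟩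
  | succ n ih =>
    obtain ⟨hi1, hm1, hmo1, hc1⟩ := ih
    have hconj : ∀ i j f g, Cub Fil n i f → Cub Fil n j g → Cub Fil n i (g * f * g⁻¹) := by
      intro i j f g hf hg
      have h1 := hmo1 i (j + i) _ (by omega) (hc1 j i g f hg hf)
      have h2 := hm1 i _ _ h1 hf
      have e : g * f * g⁻¹ = g * f * g⁻¹ * f⁻¹ * f := by group
      rw [e]
      exact h2
    refine ⟨?_, ?_, ?_, ?_⟩
    · rintro i f ⟨h1, h2⟩
      refine ⟨?_, ?_⟩
      · rw [lo_inv]
        exact hi1 i _ h1
      · rw [lo_inv, hi_inv]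
        have e : (lo f)⁻¹⁻¹ * (hi f)⁻¹ = lo f * ((lo f)⁻¹ * hi f)⁻¹ * (lo f)⁻¹ := by group
        rw [e]
        exact hconj (i + 1) i _ _ (hi1 _ _ h2) h1
    · rintro i f g ⟨h1, h2⟩ ⟨h3, h4⟩
      refine ⟨hm1 i _ _ h1 h3, ?_⟩
      rw [lo_mul, hi_mul]
      have e : (lo f * lo g)⁻¹ * (hi f * hi g) =
          (lo g)⁻¹ * ((lo f)⁻¹ * hi f) * (lo g)⁻¹⁻¹ * ((lo g)⁻¹ * hi g) := by group
      rw [e]
      exact hm1 _ _ _ (hconj (i + 1) i _ _ h2 (hi1 _ _ h3)) h4
    · rintro i j f hij ⟨h1, h2⟩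
      exact ⟨hmo1 i j _ hij h1, hmo1 (i + 1) (j + 1) _ (by omega) h2⟩
    · rintro i j f g ⟨h1, h2⟩ ⟨h3, h4⟩
      refine ⟨hc1 i j _ _ h1 h3, ?_⟩
      rw [lo_mul, hi_mul, lo_mul, hi_mul, lo_mul, hi_mul, lo_inv, lo_inv, hi_inv, hi_inv]
      set a := lo f with ha
      set c := lo g with hc
      set b := hi f with hb
      set d := hi g with hd
      have hbm : Cub Fil n i b := by
        have e : b = a * (a⁻¹ * b) := by group
        rw [e]
        exact hm1 _ _ _ h1 (hmo1 i (i + 1) _ (by omega) h2)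
      -- the two small factors
      have hw2 : Cub Fil n (i + j + 1) (c * (b * (c⁻¹ * d) * b⁻¹ * (c⁻¹ * d)⁻¹) * c⁻¹) := by
        have := hc1 i (j + 1) b (c⁻¹ * d) hbm h4
        rw [show i + (j + 1) = i + j + 1 by omega] at this
        exact hconj _ _ _ _ this h3
      have hw1 : Cub Fil n (i + j + 1) (a * ((a⁻¹ * b) * c * (a⁻¹ * b)⁻¹ * c⁻¹) * a⁻¹) := by
        have := hc1 (i + 1) j (a⁻¹ * b) c h2 h3
        rw [show i + 1 + j = i + j + 1 by omega] at this
        exact hconj _ _ _ _ this h1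
      have hac := hc1 i j a c h1 h3
      have e : (a * c * a⁻¹ * c⁻¹)⁻¹ * (b * d * b⁻¹ * d⁻¹) =
          (a * c * a⁻¹ * c⁻¹)⁻¹ * (a * ((a⁻¹ * b) * c * (a⁻¹ * b)⁻¹ * c⁻¹) * a⁻¹) *
            (a * c * a⁻¹ * c⁻¹)⁻¹⁻¹ *
          (c * (b * (c⁻¹ * d) * b⁻¹ * (c⁻¹ * d)⁻¹) * c⁻¹) := by group
      rw [e]
      exact hm1 _ _ _ (hconj _ _ _ _ hw1 (hi1 _ _ hac)) hw2

theorem cub_one (Fil : ℕ → Subgroup G) (n : ℕ) : ∀ i, Cub Fil n i 1 := by
  induction n with
  | zero => intro i; exact (Fil i).one_mem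
  | succ n ih =>
    intro i
    refine ⟨ih i, ?_⟩
    have e : (lo (1 : (Fin (n + 1) → Bool) → G))⁻¹ * hi 1 = 1 := by
      funext ε
      show (1 : G)⁻¹ * 1 = 1
      simp
    rw [e]
    exact ih (i + 1)

theorem cub_const (Fil : ℕ → Subgroup G) (h : G) (n : ℕ) :
    ∀ i, h ∈ Fil i → Cub Fil n i (fun _ => h) := by
  induction n with
  | zero => intro i hi; exact hi
  | succ n ih =>
    intro i hh
    refine ⟨ih i hh, ?_⟩
    have e : (lo (fun _ : Fin (n + 1) → Bool => h))⁻¹ * hi (fun _ : Fin (n + 1) → Bool => h)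
        = 1 := by
      funext ε
      show h⁻¹ * h = 1
      simp
    rw [e]
    exact cub_one Fil n (i + 1)

theorem cub_face (Fil : ℕ → Subgroup G) (g : G) (n : ℕ) :
    ∀ (i : ℕ) (j : Fin n), g ∈ Fil (i + 1) →
      Cub Fil n i (fun ε => if ε j = true then g else 1) := by
  induction n with
  | zero => intro i j; exact j.elim0
  | succ n ih =>
    intro i j hg
    refine Fin.cases ?_ ?_ j
    · refine ⟨?_, ?_⟩
      · have e : lo (fun ε : Fin (n + 1) → Bool => if ε 0 = true then g else 1) = 1 := by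
          funext ε
          simp [lo]
        rw [e]
        exact cub_one Fil n i
      · have e : (lo (fun ε : Fin (n + 1) → Bool => if ε 0 = true then g else 1))⁻¹ *
            hi (fun ε : Fin (n + 1) → Bool => if ε 0 = true then g else 1) = fun _ => g := by
          funext ε
          simp [lo, hi]
        rw [e]
        exact cub_const Fil g n (i + 1) hg
    · intro k
      refine ⟨?_, ?_⟩
      · have e : lo (fun ε : Fin (n + 1) → Bool => if ε k.succ = true then g else 1) =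
            fun ε => if ε k = true then g else 1 := by
          funext ε
          simp [lo]
        rw [e]
        exact ih i k hg
      · have e : (lo (fun ε : Fin (n + 1) → Bool => if ε k.succ = true then g else 1))⁻¹ *
            hi (fun ε : Fin (n + 1) → Bool => if ε k.succ = true then g else 1) = 1 := by
          funext ε
          show (if ε k = true then g else 1)⁻¹ * (if ε k = true then g else 1) = 1
          exact inv_mul_cancel _
        rw [e]
        exact cub_one Fil n (i + 1)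

theorem cub_corner (Fil : ℕ → Subgroup G) (hmono : ∀ i j, i ≤ j → Fil j ≤ Fil i)
    (hcomm : ∀ i j a b, a ∈ Fil i → b ∈ Fil j → a * b * a⁻¹ * b⁻¹ ∈ Fil (i + j)) (n : ℕ) :
    ∀ (i : ℕ) (f : (Fin n → Bool) → G), Cub Fil n i f →
      (∀ ε, (∃ j, ε j = true) → f ε = 1) → f (fun _ => false) ∈ Fil (i + n) := by
  induction n with
  | zero => intro i f h _; exact h
  | succ n ih =>
    rintro i f ⟨h1, h2⟩ hf
    have hhi : hi f = 1 := by
      funext ε
      exact hf _ ⟨0, rfl⟩
    rw [hhi, mul_one] at h2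
    have h3 := (cub_props Fil hmono hcomm n).1 _ _ h2
    rw [inv_inv] at h3
    have h4 := ih (i + 1) (lo f) h3 (by
      rintro ε ⟨j, hj⟩
      exact hf _ ⟨j.succ, by simpa using hj⟩)
    have e : (Fin.cons false (fun _ => false) : Fin (n + 1) → Bool) = fun _ => false := by
      funext k
      refine Fin.cases ?_ ?_ k
      · rfl
      · intro k; rfl
    have h5 : lo f (fun _ => false) = f (fun _ => false) := by
      show f (Fin.cons false (fun _ => false)) = _
      rw [e]
    rw [h5, show i + 1 + n = i + (n + 1) by omega] at h4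
    exact h4

end cube

theorem taskF : TaskF := by
  intro A G _ _ hnil hG H
  obtain ⟨c, hc⟩ := Subgroup.nilpotent_iff_lowerCentralSeries.1 hnil
  let Fil : ℕ → Subgroup G := fun i => (⊤ : Subgroup G).lowerCentralSeries (Nat.log 2 i)
  have hmono : ∀ i j, i ≤ j → Fil j ≤ Fil i := fun i j hij =>
    Subgroup.lowerCentralSeries_antitone _ (Nat.log_mono_right hij)
  have hnorm : ∀ i, (Fil i).Normal := fun i => inferInstance
  have hstep : ∀ k a b, a ∈ (⊤ : Subgroup G).lowerCentralSeries k →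
      a * b * a⁻¹ * b⁻¹ ∈ (⊤ : Subgroup G).lowerCentralSeries (k + 1) := by
    intro k a b ha
    rw [Subgroup.lowerCentralSeries_succ]
    exact Subgroup.commutator_mem_commutator ha (Subgroup.mem_top b)
  have hstep' : ∀ k a b, b ∈ (⊤ : Subgroup G).lowerCentralSeries k →
      a * b * a⁻¹ * b⁻¹ ∈ (⊤ : Subgroup G).lowerCentralSeries (k + 1) := by
    intro k a b hb
    have h1 := Subgroup.inv_mem _ (hstep k b a hb)
    have e : (b * a * b⁻¹ * a⁻¹)⁻¹ = a * b * a⁻¹ * b⁻¹ := by group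
    rwa [e] at h1
  have hcomm : ∀ i j a b, a ∈ Fil i → b ∈ Fil j → a * b * a⁻¹ * b⁻¹ ∈ Fil (i + j) := by
    intro i j a b ha hb
    rcases Nat.eq_zero_or_pos i with rfl | hi0
    · rw [zero_add]
      exact (Fil j).mul_mem ((hnorm j).conj_mem b hb a) ((Fil j).inv_mem hb)
    rcases Nat.eq_zero_or_pos j with rfl | hj0
    · rw [add_zero]
      have e : a * b * a⁻¹ * b⁻¹ = a * (b * a⁻¹ * b⁻¹) := by group
      rw [e]
      exact (Fil i).mul_mem ha ((hnorm i).conj_mem _ ((Fil i).inv_mem ha) b)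
    rcases le_total i j with hij | hij
    · have h1 : Nat.log 2 (i + j) ≤ Nat.log 2 j + 1 := by
        rw [← Nat.log_mul_base (by norm_num) (by omega)]
        exact Nat.log_mono_right (by omega)
      exact Subgroup.lowerCentralSeries_antitone _ h1 (hstep' _ a b hb)
    · have h1 : Nat.log 2 (i + j) ≤ Nat.log 2 i + 1 := by
        rw [← Nat.log_mul_base (by norm_num) (by omega)]
        exact Nat.log_mono_right (by omega)
      exact Subgroup.lowerCentralSeries_antitone _ h1 (hstep _ a b ha)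
  have htop : ∀ g : G, g ∈ Fil 0 := by
    intro g
    show g ∈ (⊤ : Subgroup G).lowerCentralSeries (Nat.log 2 0)
    simp
  have htop1 : ∀ g : G, g ∈ Fil (0 + 1) := by
    intro g
    show g ∈ (⊤ : Subgroup G).lowerCentralSeries (Nat.log 2 (0 + 1))
    simp
  have hbot : Fil (0 + 2 ^ c) = ⊥ := by
    show (⊤ : Subgroup G).lowerCentralSeries (Nat.log 2 (0 + 2 ^ c)) = ⊥
    rw [zero_add, Nat.log_pow (by norm_num)]
    exact hc
  let gens : Set ((Fin (2 ^ c) → Bool) → G) :=
    {f | (∃ h ∈ H, f = fun _ => h) ∨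
      ∃ (j : Fin (2 ^ c)) (g : G), f = fun ε => if ε j = true then g else 1}
  let S : Subgroup ((Fin (2 ^ c) → Bool) → G) := Subgroup.closure gens
  have hS : ∀ f ∈ S, Cub Fil (2 ^ c) 0 f := by
    intro f hf
    induction hf using Subgroup.closure_induction with
    | mem x hx =>
      rcases hx with ⟨h, _, rfl⟩ | ⟨j, g, rfl⟩
      · exact cub_const Fil h _ 0 (htop h)
      · exact cub_face Fil g _ 0 j (htop1 g)
    | one => exact cub_one Fil _ 0
    | mul x y _ _ h1 h2 => exact (cub_props Fil hmono hcomm _).2.1 0 _ _ h1 h2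
    | inv x _ h1 => exact (cub_props Fil hmono hcomm _).1 0 _ h1
  let ev : (ε : Fin (2 ^ c) → Bool) → S →* G := fun ε =>
    (Pi.evalMonoidHom (fun _ : Fin (2 ^ c) → Bool => G) ε).comp S.subtype
  have hSmem : A.Mem S := by
    refine A.mem_of_family (ι := {ε : Fin (2 ^ c) → Bool // ∃ j, ε j = true}) (fun _ => G)
      (fun ε => ev ε.1) ?_ ?_ fun _ => hG
    · rintro ⟨ε, j, hj⟩ g
      refine ⟨⟨fun ε => if ε j = true then g else 1, Subgroup.subset_closure
        (Or.inr ⟨j, g, rfl⟩)⟩, ?_⟩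
      show (if ε j = true then g else 1) = g
      rw [if_pos hj]
    · rintro ⟨f, hf⟩ h
      have h1 : ∀ ε, (∃ j, ε j = true) → f ε = 1 := fun ε hε => h ⟨ε, hε⟩
      have h2 := cub_corner Fil hmono hcomm _ 0 f (hS f hf) h1
      rw [hbot, Subgroup.mem_bot] at h2
      apply Subtype.ext
      funext ε
      by_cases hε : ∃ j, ε j = true
      · exact h1 ε hε
      · push Not at hε
        have : ε = fun _ => false := by
          funext j
          simpa using hε j
        rw [this]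
        exact h2
  have hrange : (ev fun _ => false).range = H := by
    apply le_antisymm
    · rintro _ ⟨⟨f, hf⟩, rfl⟩
      show f (fun _ => false) ∈ H
      induction hf using Subgroup.closure_induction with
      | mem x hx =>
        rcases hx with ⟨h, hh, rfl⟩ | ⟨j, g, rfl⟩
        · exact hh
        · simp
      | one => exact H.one_mem
      | mul x y _ _ h1 h2 => exact H.mul_mem h1 h2
      | inv x _ h1 => exact H.inv_mem h1
    · intro h hh
      exact ⟨⟨fun _ => h, Subgroup.subset_closure (Or.inl ⟨h, hh, rfl⟩)⟩, rfl⟩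
  rw [← hrange]
  exact A.mem_of_surjective _ (MonoidHom.rangeRestrict_surjective _) hSmem

end H355R3.UF
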