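import Mathlib
import Pool.Agent.H355R3.UF.Main
import Pool.Agent.H355R3.UF.TaskF
import Pool.Agent.H636R3.UF.TaskB
import Pool.Agent.H50R3.UF.TaskB2
import Pool.Agent.H12R3.UF.C1
import Pool.Agent.H51R3.UF.TaskC2
import Pool.Agent.H190R3.UF.TaskC
import Pool.Agent.H980R3.UF.TaskD
import Pool.Agent.H847R3.UF.TaskE
import Pool.Agent.H105R3.UF.TaskG
import Pool.Agent.H757.UF.H1
import Pool.Agent.H886R3.TaskUFH2
import Pool.Agent.H152R3.UF.TaskH3
import Pool.Agent.H3R3.UF.TaskN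
import Pool.Agent.H568R3.UF.TaskI
import Pool.Agent.H291R3.UF.TaskJ
import Pool.Agent.H318R3.UF.TaskQ
import Pool.Agent.H853R3.UF.TaskK

set_option autoImplicit false

namespace H355R3.UF

open H355R3

theorem all : All where
  tB := H636R3.UF.taskB
  tB2 := Pool.Agent.H50R3.UF.taskB2
  tC1 := Pool.Agent.H12R3.UF.taskC1
  tC2 := H51R3.UF.taskC2
  tC := H190R3.UF.taskC
  tD := H980R3.UF.taskD
  tE := Pool.Agent.H847R3.UF.taskE
  tF := taskF
  tG := Pool.Agent.H105R3.UF.taskG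
  tH1 := Pool.Agent.H757.UF.taskH1
  tH2 := Pool.Agent.H886R3.UFH2.taskH2
  tH3 := taskH3
  tN := Pool.Agent.H3R3.UF.taskN
  tI := H568R3.UF.taskI
  tJ := Pool.Agent.H291R3.UF.taskJ
  tQ := Pool.Agent.H318R3.UF.taskQ
  tK := Pool.Agent.H853R3.UF.K.taskK

end H355R3.UF
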